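import Pool.Agent.Helper12.RQ.Goals

set_option autoImplicit false

open MeasureTheory Set Filter Topology Metric

open scoped ENNReal NNReal ContDiff RealInnerProductSpace

namespace Pool.Agent.Helper50.RQ

open Pool.Agent.Helper12.RQ

variable {n : ℕ}

lemma inner_refl (a ν y : E n) (hν : ‖ν‖ = 1) :
    ⟪refl a ν y - a, ν⟫ = -⟪y - a, ν⟫ := by
  have h1 : refl a ν y - a = (y - a) - (2 * ⟪y - a, ν⟫) • ν := by
    unfold Pool.Agent.Helper12.RQ.refl; abel
  rw [h1, inner_sub_left, inner_smul_left, real_inner_self_eq_norm_sq, hν]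
  simp only [conj_trivial]
  ring

lemma refl_refl (a ν y : E n) (hν : ‖ν‖ = 1) : refl a ν (refl a ν y) = y := by
  have h1 := inner_refl a ν y hν
  change refl a ν y - (2 * ⟪refl a ν y - a, ν⟫) • ν = y
  rw [h1]
  unfold Pool.Agent.Helper12.RQ.refl
  module

lemma norm_refl (a ν y : E n) (hν : ‖ν‖ = 1) : ‖refl a ν y - a‖ = ‖y - a‖ := by
  have h1 : refl a ν y - a = (y - a) - (2 * ⟪y - a, ν⟫) • ν := by
    unfold Pool.Agent.Helper12.RQ.refl; abel
  have h2 : ‖refl a ν y - a‖ ^ 2 = ‖y - a‖ ^ 2 := by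
    rw [h1, norm_sub_sq_real, inner_smul_right, norm_smul, hν, mul_one, Real.norm_eq_abs, sq_abs]
    ring
  exact (sq_eq_sq₀ (norm_nonneg _) (norm_nonneg _)).mp h2

/-- change of variables by a reflection -/
lemma integral_refl (a ν : E n) (hν : ‖ν‖ = 1) (f : E n → ℝ) :
    ∫ y, f (refl a ν y) = ∫ y, f y := by
  set R : E n ≃ₗᵢ[ℝ] E n := (ℝ ∙ ν)ᗮ.reflection with hR
  have h1 : ∀ y, refl a ν y = a + R (y - a) := by
    intro y
    rw [hR, Submodule.reflection_orthogonal_apply, Submodule.reflection_singleton_apply]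
    unfold Pool.Agent.Helper12.RQ.refl
    rw [hν, real_inner_comm]
    simp only [RCLike.ofReal_real_eq_id, id_eq, one_pow, div_one, neg_sub]
    module
  calc ∫ y, f (refl a ν y) = ∫ y, (fun y => f (a + R y)) (y - a) := by
        refine integral_congr_ae (ae_of_all _ (fun y => ?_))
        simp only [h1]
    _ = ∫ y, f (a + R y) := integral_sub_right_eq_self (fun y => f (a + R y)) a
    _ = ∫ y, f (a + y) := by
        have := R.measurePreserving.integral_comp R.toHomeomorph.measurableEmbedding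
          (fun y => f (a + y))
        simpa using this
    _ = ∫ y, f y := integral_add_left_eq_self f a

/-- the class of competitors -/
structure FF (p : ℝ) (u : E n → ℝ) (C : ℝ≥0) (a : E n) (ρ L : ℝ) (v : E n → ℝ) : Prop where
  lip : LipschitzWith C v
  bd : ∀ x, 0 ≤ v x ∧ v x ≤ 1
  supp : ∀ x, ρ < ‖x - a‖ → v x = 0
  sph : ∀ s ∈ Icc 0 L, ∃ z, ‖z - a‖ = s ∧ v z = 1
  energy : en p v ≤ en p u

lemma FF.compactSupport {p : ℝ} {u : E n → ℝ} {C : ℝ≥0} {a : E n} {ρ L : ℝ} {v : E n → ℝ}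
    (h : FF p u C a ρ L v) : HasCompactSupport v := by
  refine HasCompactSupport.intro (isCompact_closedBall a ρ) (fun x hx => h.supp x ?_)
  rw [mem_closedBall, dist_eq_norm, not_le] at hx
  exact hx

/-- limits of competitors -/
lemma FF.lim {p : ℝ} {u : E n → ℝ} {C : ℝ≥0} {a : E n} {ρ L : ℝ} (hp : 1 ≤ p) (hLSC : StmtLSC)
    (V : ℕ → E n → ℝ) (hV : ∀ k, FF p u C a ρ L (V k)) (v : E n → ℝ)
    (hv : ∀ x, Tendsto (fun k => V k x) atTop (𝓝 (v x))) : FF p u C a ρ L v where
  lip := by
    refine LipschitzWith.of_dist_le_mul (fun x y => ?_)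
    have h1 : Tendsto (fun k => dist (V k x) (V k y)) atTop (𝓝 (dist (v x) (v y))) :=
      (hv x).dist (hv y)
    exact le_of_tendsto h1 (Eventually.of_forall (fun k => (hV k).lip.dist_le_mul x y))
  bd := fun x => ⟨ge_of_tendsto (hv x) (Eventually.of_forall (fun k => ((hV k).bd x).1)),
    le_of_tendsto (hv x) (Eventually.of_forall (fun k => ((hV k).bd x).2))⟩
  supp := by
    intro x hx
    have h1 : (fun k => V k x) = fun _ => (0 : ℝ) := funext (fun k => (hV k).supp x hx)
    have h2 := hv x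
    rw [h1] at h2
    exact (tendsto_nhds_unique h2 tendsto_const_nhds)
  sph := by
    intro s hs
    choose z hz1 hz2 using fun k => (hV k).sph s hs
    have hmem : ∀ k, z k ∈ sphere a s := fun k => by
      rw [mem_sphere, dist_eq_norm]; exact hz1 k
    obtain ⟨z₀, hz₀, ψ, hψ, hlim⟩ := (isCompact_sphere a s).tendsto_subseq hmem
    refine ⟨z₀, by rw [mem_sphere, dist_eq_norm] at hz₀; exact hz₀, ?_⟩
    have h1 : Tendsto (fun k => V (ψ k) z₀) atTop (𝓝 (v z₀)) := (hv z₀).comp hψ.tendsto_atTop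
    have h2 : Tendsto (fun k => V (ψ k) z₀) atTop (𝓝 1) := by
      rw [tendsto_iff_dist_tendsto_zero]
      refine squeeze_zero (fun _ => dist_nonneg) (g := fun k => (C : ℝ) * dist z₀ (z (ψ k)))
        (fun k => ?_) ?_
      · have := (hV (ψ k)).lip.dist_le_mul z₀ (z (ψ k))
        rwa [hz2 (ψ k)] at this
      · have h3 : Tendsto (fun k => dist z₀ (z (ψ k))) atTop (𝓝 (dist z₀ z₀)) :=
          tendsto_const_nhds.dist hlim
        rw [dist_self] at h3
        simpa using h3.const_mul (C : ℝ)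
    exact tendsto_nhds_unique h1 h2
  energy := by
    refine (hLSC n p hp V v C (fun k => (hV k).lip) hv).trans ?_
    calc liminf (fun k => en p (V k)) atTop ≤ liminf (fun _ : ℕ => en p u) atTop :=
          liminf_le_liminf (Eventually.of_forall (fun k => (hV k).energy))
      _ = en p u := liminf_const _

/-- the functional -/
noncomputable def JJ (a e : E n) (v : E n → ℝ) : ℝ := ∫ y, v y * ⟪y - a, e⟫

lemma FF.integrable {p : ℝ} {u : E n → ℝ} {C : ℝ≥0} {a : E n} {ρ L : ℝ} {v : E n → ℝ}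
    (h : FF p u C a ρ L v) (g : E n → ℝ) (hg : Continuous g) :
    Integrable (fun y => v y * g y) :=
  (h.lip.continuous.mul hg).integrable_of_hasCompactSupport h.compactSupport.mul_right

lemma inner_cont (a e : E n) : Continuous (fun y : E n => ⟪y - a, e⟫) := by fun_prop

lemma FF.bound {p : ℝ} {u : E n → ℝ} {C : ℝ≥0} {a : E n} {ρ L : ℝ} {v : E n → ℝ}
    (h : FF p u C a ρ L v) (e : E n) (he : ‖e‖ = 1) (y : E n) :
    ‖v y * ⟪y - a, e⟫‖ ≤ (closedBall a ρ).indicator (fun _ => ρ) y := by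
  by_cases hy : y ∈ closedBall a ρ
  · rw [indicator_of_mem hy, norm_mul]
    rw [mem_closedBall, dist_eq_norm] at hy
    have h1 : ‖v y‖ ≤ 1 := by
      rw [Real.norm_eq_abs, abs_of_nonneg (h.bd y).1]; exact (h.bd y).2
    have h2 : ‖⟪y - a, e⟫‖ ≤ ρ := by
      refine (norm_inner_le_norm _ _).trans ?_
      rw [he, mul_one]; exact hy
    calc ‖v y‖ * ‖⟪y - a, e⟫‖ ≤ 1 * ρ := mul_le_mul h1 h2 (norm_nonneg _) zero_le_one
      _ = ρ := one_mul _
  · rw [indicator_of_notMem hy]
    rw [mem_closedBall, dist_eq_norm, not_le] at hy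
    rw [h.supp y hy, zero_mul, norm_zero]

/-- existence of a maximiser -/
lemma exists_max {p : ℝ} {u : E n → ℝ} {C : ℝ≥0} {a e : E n} {ρ L : ℝ} (hp : 1 ≤ p)
    (he : ‖e‖ = 1) (hLSC : StmtLSC) (hCPT : StmtCPT) (hu : FF p u C a ρ L u) :
    ∃ v, FF p u C a ρ L v ∧ ∀ w, FF p u C a ρ L w → JJ a e w ≤ JJ a e v := by
  set S : Set ℝ := {t | ∃ v, FF p u C a ρ L v ∧ JJ a e v = t} with hS
  have hne : S.Nonempty := ⟨_, u, hu, rfl⟩
  have hbint : Integrable ((closedBall a ρ).indicator (fun _ => ρ) : E n → ℝ) :=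
    (integrableOn_const (measure_closedBall_lt_top).ne).integrable_indicator
      isClosed_closedBall.measurableSet
  have hbdd : BddAbove S := by
    refine ⟨∫ y : E n, (closedBall a ρ).indicator (fun _ => ρ) y, ?_⟩
    rintro t ⟨v, hv, rfl⟩
    refine integral_mono (hv.integrable _ (inner_cont a e)) hbint (fun y => ?_)
    exact (le_abs_self _).trans (hv.bound e he y)
  obtain ⟨t, _, htlim, htS⟩ := exists_seq_tendsto_sSup hne hbdd
  choose V hV hVt using htS
  obtain ⟨φ, hφ, v, hv⟩ := hCPT n C V (fun k => (hV k).lip) (fun k x => (hV k).bd x)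
  have hF : FF p u C a ρ L v := FF.lim hp hLSC (fun k => V (φ k)) (fun k => hV (φ k)) v hv
  refine ⟨v, hF, fun w hw => ?_⟩
  have h1 : Tendsto (fun k => JJ a e (V (φ k))) atTop (𝓝 (JJ a e v)) := by
    refine tendsto_integral_of_dominated_convergence
      ((closedBall a ρ).indicator (fun _ => ρ)) (fun k => ?_) hbint (fun k => ?_) ?_
    · exact ((hV (φ k)).integrable _ (inner_cont a e)).aestronglyMeasurable
    · exact ae_of_all _ (fun y => (hV (φ k)).bound e he y)
    · exact ae_of_all _ (fun y => (hv y).mul_const _)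
  have h2 : Tendsto (fun k => JJ a e (V (φ k))) atTop (𝓝 (sSup S)) := by
    have : (fun k => JJ a e (V (φ k))) = t ∘ φ := funext (fun k => hVt (φ k))
    rw [this]
    exact htlim.comp hφ.tendsto_atTop
  rw [tendsto_nhds_unique h1 h2]
  exact le_csSup hbdd ⟨w, hw, rfl⟩

/-- polarisations are competitors -/
lemma FF.pol {p : ℝ} {u : E n → ℝ} {C : ℝ≥0} {a : E n} {ρ L : ℝ} {v : E n → ℝ} (hp : 1 ≤ p)
    (hPOL : StmtPOL) (h : FF p u C a ρ L v) (ν : E n) (hν : ‖ν‖ = 1) :
    FF p u C a ρ L (pol a ν v) where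
  lip := (hPOL n p (by linarith) a ν hν v C h.lip).1
  bd := by
    intro x
    have h1 := h.bd x
    have h2 := h.bd (refl a ν x)
    unfold Pool.Agent.Helper12.RQ.pol
    split_ifs
    · exact ⟨le_max_of_le_left h1.1, max_le h1.2 h2.2⟩
    · exact ⟨le_min h1.1 h2.1, (min_le_left _ _).trans h1.2⟩
  supp := by
    intro x hx
    have h1 := h.supp x hx
    have h2 := h.supp (refl a ν x) (by rw [norm_refl a ν x hν]; exact hx)
    unfold Pool.Agent.Helper12.RQ.pol
    rw [h1, h2]
    simp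
  sph := by
    intro s hs
    obtain ⟨z, hz1, hz2⟩ := h.sph s hs
    by_cases hz : 0 ≤ ⟪z - a, ν⟫
    · refine ⟨z, hz1, ?_⟩
      unfold Pool.Agent.Helper12.RQ.pol
      rw [if_pos hz, hz2]
      exact max_eq_left (h.bd _).2
    · refine ⟨refl a ν z, by rw [norm_refl a ν z hν]; exact hz1, ?_⟩
      unfold Pool.Agent.Helper12.RQ.pol
      rw [if_pos (by rw [inner_refl a ν z hν]; linarith), refl_refl a ν z hν, hz2]
      exact max_eq_right (h.bd _).2
  energy := (hPOL n p (by linarith) a ν hν v C h.lip).2.trans h.energy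

theorem star (h1 : StmtPOL) (h2 : StmtCPT) (h3 : StmtLSC) (h4 : StmtSEG) : StmtSTAR := by
  intro n p hn hp hpn u hCu hsupp hbd K hK a ha b hb hKu
  obtain ⟨C, hC⟩ := hCu
  set L : ℝ := ‖b - a‖ with hL
  rcases (norm_nonneg (b - a)).eq_or_lt with h0 | hLpos
  · rw [hL, ← h0, Real.zero_rpow (by linarith), ENNReal.ofReal_zero, mul_zero]
    exact bot_le
  -- the unit vector
  set e : E n := L⁻¹ • (b - a) with he
  have he1 : ‖e‖ = 1 := by
    rw [he, norm_smul, norm_inv, Real.norm_eq_abs, abs_of_nonneg (norm_nonneg _), ← hL]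
    exact inv_mul_cancel₀ hLpos.ne'
  -- the support
  obtain ⟨ρ, hρ⟩ : ∃ ρ : ℝ, ∀ x, ρ < ‖x - a‖ → u x = 0 := by
    obtain ⟨ρ, hρ⟩ := hsupp.isCompact.isBounded.subset_closedBall a
    refine ⟨ρ, fun x hx => ?_⟩
    by_contra hne
    have := hρ (subset_tsupport u hne)
    rw [mem_closedBall, dist_eq_norm] at this
    linarith
  have hFu : FF p u C a ρ L u := by
    refine ⟨hC, hbd, hρ, fun s hs => ?_, le_rfl⟩
    have hpc : IsPreconnected ((fun x : E n => ‖x - a‖) '' K) :=
      hK.image _ (by fun_prop)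
    have h5 : Icc (0 : ℝ) L ⊆ (fun x : E n => ‖x - a‖) '' K :=
      hpc.Icc_subset ⟨a, ha, by simp⟩ ⟨b, hb, rfl⟩
    obtain ⟨z, hzK, hz⟩ := h5 hs
    exact ⟨z, hz, hKu z hzK⟩
  obtain ⟨v, hv, hmax⟩ := exists_max hp he1 h3 h2 hFu
  -- the maximiser is one on the segment
  have hone : ∀ s ∈ Icc (0 : ℝ) L, 1 ≤ v (a + s • e) := by
    intro s hs
    obtain ⟨z, hz1, hz2⟩ := hv.sph s hs
    by_cases hze : z = a + s • e
    · rw [← hze, hz2]
    rcases hs.1.eq_or_lt with hs0 | hs0
    · exfalso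
      apply hze
      rw [← hs0] at hz1
      rw [← hs0, zero_smul, add_zero]
      exact sub_eq_zero.mp (norm_eq_zero.mp hz1)
    set d : E n := a + s • e - z with hd
    have hd0 : d ≠ 0 := fun h => hze (sub_eq_zero.mp h).symm
    have hdpos : 0 < ‖d‖ := norm_pos_iff.mpr hd0
    set ν : E n := ‖d‖⁻¹ • d with hνdef
    have hν : ‖ν‖ = 1 := by
      rw [hνdef, norm_smul, norm_inv, norm_norm]
      exact inv_mul_cancel₀ hdpos.ne'
    -- the scalar product of `s e` and `d`
    have hsd : 2 * ⟪s • e, d⟫ = ‖d‖ ^ 2 := by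
      have e1 : z - a = s • e - d := by rw [hd]; abel
      have e2 : ‖s • e - d‖ ^ 2 = s ^ 2 := by rw [← e1, hz1]
      rw [norm_sub_sq_real, norm_smul, he1, mul_one, Real.norm_eq_abs, sq_abs] at e2
      linarith
    have hin : ⟪s • e, ν⟫ = ‖d‖ / 2 := by
      rw [hνdef, inner_smul_right]
      field_simp
      linarith
    have hrefl : refl a ν (a + s • e) = z := by
      unfold Pool.Agent.Helper12.RQ.refl
      have h5 : (2 * (‖d‖ / 2)) • ν = d := by
        rw [hνdef, smul_smul]
        have : 2 * (‖d‖ / 2) * ‖d‖⁻¹ = 1 := by field_simp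
        rw [this, one_smul]
      rw [add_sub_cancel_left, hin, h5, hd]
      abel
    have hypos : 0 < ⟪(a + s • e) - a, ν⟫ := by
      rw [add_sub_cancel_left, hin]; positivity
    have heν : 0 < ⟪ν, e⟫ := by
      have : ⟪s • e, ν⟫ = s * ⟪ν, e⟫ := by
        rw [inner_smul_left, real_inner_comm]; simp
      rw [this] at hin
      by_contra hcon
      have : s * ⟪ν, e⟫ ≤ 0 := mul_nonpos_of_nonneg_of_nonpos hs0.le (not_lt.mp hcon)
      rw [hin] at this
      linarith
    clear_value ν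
    have hw := hv.pol hp h1 ν hν
    set w := pol a ν v with hwdef
    -- antisymmetry of `w - v`
    have hanti : ∀ y, w (refl a ν y) - v (refl a ν y) = -(w y - v y) := by
      intro y
      rw [hwdef]
      unfold pol
      rw [inner_refl a ν y hν, refl_refl a ν y hν]
      rcases lt_trichotomy ⟪y - a, ν⟫ 0 with hy | hy | hy
      · rw [if_pos (by linarith), if_neg (by linarith)]
        have := min_add_max (v y) (v (refl a ν y))
        rw [max_comm] at this
        linarith
      · have hyy : refl a ν y = y := by unfold Pool.Agent.Helper12.RQ.refl; rw [hy]; simp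
        rw [hy, hyy]
        simp
      · rw [if_neg (by linarith), if_pos (by linarith)]
        have := min_add_max (v y) (v (refl a ν y))
        rw [min_comm] at this
        linarith
    have hnn : ∀ y, 0 ≤ (w y - v y) * ⟪y - a, ν⟫ := by
      intro y
      rw [hwdef]
      unfold pol
      split_ifs with hy
      · exact mul_nonneg (by linarith [le_max_left (v y) (v (refl a ν y))]) hy
      · exact mul_nonneg_of_nonpos_of_nonpos
          (by linarith [min_le_left (v y) (v (refl a ν y))]) (by linarith)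
    have hint : ∀ f : E n → ℝ, Continuous f → Integrable (fun y => (w y - v y) * f y) := by
      intro f hf
      have := (hw.integrable f hf).sub (hv.integrable f hf)
      refine this.congr (ae_of_all _ (fun y => ?_))
      simp only [Pi.sub_apply]; ring
    have hJ : JJ a e w - JJ a e v = ∫ y, (w y - v y) * ⟪y - a, e⟫ := by
      unfold JJ
      rw [← integral_sub (hw.integrable _ (inner_cont a e)) (hv.integrable _ (inner_cont a e))]
      refine integral_congr_ae (ae_of_all _ (fun y => ?_))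
      simp only; ring
    have hflip : ∫ y, (w y - v y) * ⟪y - a, e⟫ = -∫ y, (w y - v y) * ⟪refl a ν y - a, e⟫ := by
      rw [← integral_refl a ν hν (fun y => (w y - v y) * ⟪y - a, e⟫), ← integral_neg]
      refine integral_congr_ae (ae_of_all _ (fun y => ?_))
      simp only
      rw [hanti y]; ring
    have hrc : Continuous (fun y : E n => ⟪refl a ν y - a, e⟫) := by
      unfold Pool.Agent.Helper12.RQ.refl; fun_prop
    have h2J : 2 * (JJ a e w - JJ a e v) =
        2 * ⟪ν, e⟫ * ∫ y, (w y - v y) * ⟪y - a, ν⟫ := by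
      have e1 : 2 * (JJ a e w - JJ a e v) = (∫ y, (w y - v y) * ⟪y - a, e⟫) -
          ∫ y, (w y - v y) * ⟪refl a ν y - a, e⟫ := by
        rw [hJ]; linarith [hflip]
      rw [e1, ← integral_sub (hint _ (inner_cont a e)) (hint _ hrc), ← integral_const_mul]
      refine integral_congr_ae (ae_of_all _ (fun y => ?_))
      simp only
      have e2 : refl a ν y - a = (y - a) - (2 * ⟪y - a, ν⟫) • ν := by
        unfold Pool.Agent.Helper12.RQ.refl; abel
      have e3 : ⟪refl a ν y - a, e⟫ = ⟪y - a, e⟫ - 2 * ⟪y - a, ν⟫ * ⟪ν, e⟫ := by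
        rw [e2, inner_sub_left (y - a), real_inner_smul_left]
      rw [e3]
      ring
    have hle : JJ a e w - JJ a e v ≤ 0 := by linarith [hmax w hw]
    have hI0 : 0 ≤ ∫ y, (w y - v y) * ⟪y - a, ν⟫ := integral_nonneg hnn
    have hI : ∫ y, (w y - v y) * ⟪y - a, ν⟫ = 0 := by
      have : 0 ≤ ⟪ν, e⟫ * ∫ y, (w y - v y) * ⟪y - a, ν⟫ := mul_nonneg heν.le hI0
      have h5 : ⟪ν, e⟫ * ∫ y, (w y - v y) * ⟪y - a, ν⟫ = 0 := by
        have : 2 * ⟪ν, e⟫ * ∫ y, (w y - v y) * ⟪y - a, ν⟫ ≤ 0 := by rw [← h2J]; linarith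
        linarith
      exact (mul_eq_zero.mp h5).resolve_left heν.ne'
    have hcont : Continuous (fun y => (w y - v y) * ⟪y - a, ν⟫) :=
      (hw.lip.continuous.sub hv.lip.continuous).mul (inner_cont a ν)
    have hae : (fun y => (w y - v y) * ⟪y - a, ν⟫) =ᵐ[volume] fun _ => (0 : ℝ) :=
      (integral_eq_zero_iff_of_nonneg hnn (hint _ (inner_cont a ν))).mp hI
    have heq := (hcont.ae_eq_iff_eq volume continuous_const).mp hae
    have hpt := congrFun heq (a + s • e)
    have hvw : w (a + s • e) = v (a + s • e) := by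
      have := (mul_eq_zero.mp hpt).resolve_right hypos.ne'
      linarith
    rw [← hvw, hwdef]
    unfold pol
    rw [if_pos hypos.le, hrefl, hz2]
    exact le_max_right _ _
  exact (h4 n p hp v C hv.lip hv.compactSupport a e L he1 hLpos hone).trans hv.energy

end Pool.Agent.Helper50.RQ
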